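import Pool.Agent.H19.OG.Defs
import Pool.Agent.H19.OG.Bas

/-!
# OG, row F7 (Step 7)
-/

set_option autoImplicit false

namespace Pool.OG

variable {X : Data}

/-- ROW F7 (Step 7). -/
theorem step7 (hX : Facts X) (V : Set X.Pt) (hV : VG X V)
    (M : Fin X.n → ℝ) (H : ℕ → Fin X.n → ℤ) (b : ℕ → ℝ) (lam C₃ : ℝ) (N : ℕ)
    (ha : ∀ k, X.Ample (H k)) (hlam : 1 ≤ lam) (hC₃ : 0 < C₃)
    (hb : Filter.Tendsto b Filter.atTop Filter.atTop)
    (hmon : ∀ k, lam • re (H (k + 1)) - re (H k) ∈ Nef X)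
    (hM : ∀ k, re (H k) - b k • M ∈ Nef X) (hMn : M ∈ Nef X)
    (hMC : ∀ C, lin (X.dg C) M ≠ 0)
    (h5 : ∀ k, N ≤ k → ∀ x ∈ V, ∃ C, 0 < X.mq C x ∧
      lin (X.dg C) (re (H k)) ≤ C₃ * X.mq C x)
    (h6 : ∀ k, N ≤ k → ∀ x ∈ V, ∀ C, 0 < X.mq C x →
      lin (X.dg C) (re (H k)) ≤ lam * C₃ * X.mq C x →
      ∃ S : Finset X.Pt, ∀ z ∈ V, 0 < X.mq C z → z ∉ S → ∀ C', 0 < X.mq C' z →
        lin (X.dg C') (re (H k)) ≤ lam * C₃ * X.mq C' z → C' = C) : False := by
  classical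
  have hlC : C₃ ≤ lam * C₃ := by nlinarith
  obtain ⟨x, hx⟩ := hV.ne
  obtain ⟨C, hCx, hCd⟩ := h5 N le_rfl x hx
  -- a smooth very general point of `C` outside a finite set
  have hz : ∀ S : Finset X.Pt, ∃ z ∈ V, X.mq C z = 1 ∧ z ∉ S := by
    intro S
    obtain ⟨z, hzV, hz0, hzS⟩ := hV.dense C x hx hCx (S ∪ (hX.cyc.cv_sing C).toFinset)
    rw [Finset.mem_union, not_or, Set.Finite.mem_toFinset] at hzS
    refine ⟨z, hzV, ?_, hzS.1⟩
    have h1 : ¬ 1 < X.mq C z := hzS.2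
    omega
  have hCx' : (1 : ℝ) ≤ X.mq C x := by exact_mod_cast hCx
  -- the degrees of `C`
  have key : ∀ m, lin (X.dg C) (re (H (N + m))) ≤ C₃ := by
    intro m
    induction m with
    | zero =>
      have h1 : lin (X.dg C) (re (H N)) ≤ lam * C₃ * X.mq C x := by
        refine hCd.trans ?_
        exact mul_le_mul_of_nonneg_right hlC (by linarith)
      obtain ⟨S, hS⟩ := h6 N le_rfl x hx C hCx h1
      obtain ⟨z, hzV, hz1, hzS⟩ := hz S
      obtain ⟨C', hC'z, hC'd⟩ := h5 N le_rfl z hzV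
      have h2 : C' = C := by
        refine hS z hzV (by omega) hzS C' hC'z (hC'd.trans ?_)
        exact mul_le_mul_of_nonneg_right hlC (Nat.cast_nonneg _)
      rw [h2, hz1, Nat.cast_one, mul_one] at hC'd
      exact hC'd
    | succ m ih =>
      have h1 : lin (X.dg C) (re (H (N + m))) ≤ lam * C₃ * X.mq C x := by
        refine ih.trans (hlC.trans ?_)
        have : 0 ≤ lam * C₃ := by linarith
        nlinarith
      obtain ⟨S, hS⟩ := h6 (N + m) (by omega) x hx C hCx h1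
      obtain ⟨z, hzV, hz1, hzS⟩ := hz S
      obtain ⟨C', hC'z, hC'd⟩ := h5 (N + m + 1) (by omega) z hzV
      have h3 := hmon (N + m) C'
      rw [lin_sub, lin_smul] at h3
      have h2 : C' = C := by
        refine hS z hzV (by omega) hzS C' hC'z ?_
        have h4 : lam * lin (X.dg C') (re (H (N + m + 1))) ≤ lam * (C₃ * X.mq C' z) :=
          mul_le_mul_of_nonneg_left hC'd (by linarith)
        linarith
      rw [h2, hz1, Nat.cast_one, mul_one] at hC'd
      exact hC'd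
  -- the contradiction
  have hMpos : 0 < lin (X.dg C) M := lt_of_le_of_ne (hMn C) (Ne.symm (hMC C))
  obtain ⟨K, hK⟩ := (hb.eventually
    (Filter.eventually_gt_atTop (C₃ / lin (X.dg C) M))).exists_forall_of_atTop
  have h1 := hK (N + K) (by omega)
  have h2 := hM (N + K) C
  rw [lin_sub, lin_smul] at h2
  rw [div_lt_iff₀ hMpos] at h1
  have h3 := key K
  linarith

end Pool.OG
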